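import Pool.Agent.N856.QB.Stm

/-!
# Torsion and minimality over real quadratic fields (QB-TOR, QB-MIN)
-/

set_option autoImplicit false

open NumberField IsDedekindDomain WeierstrassCurve WithZero

namespace Pool.Agent.N717.QB

open scoped Classical

open Pool.Agent.TH841.SH (IsR)
open Pool.Agent.N856.JL (Cn Dsc)
open Pool.Agent.N875.X15 (Em WN WN_Δ WN_Δ_ne WN_k vr two_tor dbl_T isR_eqn)
open Pool.Agent.Y682.XF (base MinimalAt)
open Pool.Agent.H437R2.Man.MW (crv pt_fg)
open Pool.Agent.N856.QB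

/-! ### squares -/

/-- rational numbers which are squares in a quadratic field -/
theorem sq_cases {d : ℕ} {K : Type} [Field K] [NumberField K] {r : K} (h : Qf d K r)
    (hd : Squarefree d) (h1 : 1 < d) {q : ℚ} (hz : IsSquare ((q : ℚ) : K)) :
    (∃ a : ℚ, a ^ 2 = q) ∨ ∃ b : ℚ, d * b ^ 2 = q := by
  obtain ⟨z, hz⟩ := hz
  obtain ⟨a, b, hab⟩ := h.hK z
  have hr := h.hr
  have e1 : ((q - a ^ 2 - d * b ^ 2 : ℚ) : K) = ((2 * a * b : ℚ) : K) * r := by
    push_cast
    rw [hz, hab]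
    linear_combination (b : K) ^ 2 * hr
  by_cases hab0 : a * b = 0
  · have e2 : q - a ^ 2 - d * b ^ 2 = 0 := by
      have : ((q - a ^ 2 - d * b ^ 2 : ℚ) : K) = 0 := by
        rw [e1, show 2 * a * b = 2 * (a * b) by ring, hab0]
        simp
      exact_mod_cast this
    rcases mul_eq_zero.1 hab0 with h0 | h0
    · right
      refine ⟨b, ?_⟩
      rw [h0] at e2
      linear_combination -e2
    · left
      refine ⟨a, ?_⟩
      rw [h0] at e2
      linear_combination -e2
  · exfalso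
    have hne : (2 * a * b : ℚ) ≠ 0 := by
      rw [mul_assoc]
      exact mul_ne_zero two_ne_zero hab0
    have e3 : r = ((q - a ^ 2 - d * b ^ 2) / (2 * a * b) : ℚ) := by
      rw [Rat.cast_div, e1, mul_comm, mul_div_assoc, div_self (by exact_mod_cast hne), mul_one]
    rw [e3] at hr
    have e4 : ((q - a ^ 2 - d * b ^ 2) / (2 * a * b) : ℚ) ^ 2 = (d : ℚ) := by exact_mod_cast hr
    have e5 : IsSquare (d : ℚ) := ⟨_, by rw [← e4, pow_two]⟩
    rw [Rat.isSquare_natCast_iff] at e5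
    obtain ⟨x, hx⟩ := e5
    have e6 : IsUnit x := hd x (by rw [hx])
    rw [Nat.isUnit_iff] at e6
    rw [e6] at hx
    omega

theorem not_sq_mod {N : ℤ} (hN : N % 4 = 3) (a : ℚ) : a ^ 2 ≠ N := by
  intro h
  have h1 : IsSquare (N : ℚ) := ⟨a, by rw [← h, pow_two]⟩
  rw [Rat.isSquare_intCast_iff] at h1
  obtain ⟨x, hx⟩ := h1
  have h2 : x % 4 = 0 ∨ x % 4 = 1 ∨ x % 4 = 2 ∨ x % 4 = 3 := by omega
  rcases h2 with h2 | h2 | h2 | h2 <;> rw [hx, Int.mul_emod, h2] at hN <;> norm_num at hN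

section

variable {n d : ℕ} (H : Hy n d) {K : Type} [Field K] [NumberField K] {r : K} (h : Qf d K r)

include H

theorem mod_n : n % 4 = 3 := by
  rcases H.hn.2 with h | h <;> omega

theorem mod_d : d % 4 = 1 := by
  have := H.hd.2.1
  omega

theorem npos : 0 < n := by
  have := mod_n H
  omega

include h

/-- `n` is not a square in `K` -/
theorem n_not_sq : ¬ IsSquare ((n : ℕ) : K) := by
  intro hs
  have e : ((n : ℕ) : K) = (((n : ℕ) : ℚ) : K) := by norm_num
  rw [e] at hs
  have hn := mod_n H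
  have hd := mod_d H
  rcases sq_cases h H.hd.1 H.h1 hs with ⟨a, ha⟩ | ⟨b, hb⟩
  · refine not_sq_mod (N := (n : ℤ)) (by omega) a ?_
    rw [ha]
    norm_num
  · refine not_sq_mod (N := (n : ℤ) * d) ?_ (d * b) ?_
    · rw [Int.mul_emod]
      have h1 : (n : ℤ) % 4 = 3 := by omega
      have h2 : (d : ℤ) % 4 = 1 := by omega
      rw [h1, h2]
      norm_num
    · push_cast
      rw [← hb]
      ring

/-- `-n` is not a square in `K` -/
theorem neg_n_not_sq : ¬ IsSquare (-((n : ℕ) : K)) := by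
  intro hs
  have e : (-((n : ℕ) : K)) = ((-((n : ℕ) : ℚ) : ℚ) : K) := by norm_num
  rw [e] at hs
  have hn : (0 : ℚ) < n := by exact_mod_cast npos H
  have hd : (0 : ℚ) < d := by
    have := H.h1
    exact_mod_cast (by omega : 0 < d)
  rcases sq_cases h H.hd.1 H.h1 hs with ⟨a, ha⟩ | ⟨b, hb⟩
  · nlinarith [sq_nonneg a]
  · nlinarith [mul_nonneg hd.le (sq_nonneg b)]

end

/-! ### groups -/

/-- a group with four elements killed by two and no element of order four -/
theorem card_four {A : Type} [AddCommGroup A] [Finite A] (h2 : Nat.card {x : A // x + x = 0} = 4)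
    (h4 : ∀ x : A, (x + x) + (x + x) = 0 → x + x = 0) : ∃ t : ℕ, Odd t ∧ Nat.card A = 4 * t := by
  let f : A →+ A := (AddMonoidHom.id A) + (AddMonoidHom.id A)
  have hf : ∀ x, f x = x + x := fun x => rfl
  have hker : Nat.card f.ker = 4 := by
    rw [← h2]
    exact Nat.card_congr (Equiv.subtypeEquivRight fun x => by rw [AddMonoidHom.mem_ker, hf])
  refine ⟨Nat.card f.range, ?_, ?_⟩
  · rw [← Nat.not_even_iff_odd]
    intro he
    have : Fact (Nat.Prime 2) := ⟨Nat.prime_two⟩
    obtain ⟨x, hx⟩ := exists_prime_addOrderOf_dvd_card' (G := f.range) 2 (even_iff_two_dvd.1 he)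
    have hx2 : x + x = 0 := by
      rw [← two_nsmul, ← hx]
      exact addOrderOf_nsmul_eq_zero x
    obtain ⟨⟨y, ⟨z, hz⟩⟩, rfl⟩ : ∃ y, y = x := ⟨x, rfl⟩
    have h5 : y + y = 0 := congrArg Subtype.val hx2
    rw [hf] at hz
    rw [← hz] at h5
    have h6 := h4 z h5
    have h7 : y = 0 := by rw [← hz, h6]
    have h8 : (⟨y, ⟨z, hz⟩⟩ : f.range) = 0 := Subtype.ext h7
    rw [h8, addOrderOf_zero] at hx
    exact absurd hx (by norm_num)
  · have h1 := AddSubgroup.card_eq_card_quotient_mul_card_addSubgroup f.ker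
    rw [hker] at h1
    have h3 : Nat.card (A ⧸ f.ker) = Nat.card f.range :=
      Nat.card_congr (QuotientAddGroup.quotientKerEquivRange f).toEquiv
    rw [h1, h3, mul_comm]

theorem finite_tors {A : Type} [AddCommGroup A] (h : AddGroup.FG A) :
    Finite (AddCommGroup.torsion A) := by
  have h1 : Module.Finite ℤ A := Module.Finite.iff_addGroup_fg.2 h
  have h2 : IsNoetherian ℤ A := isNoetherian_of_isNoetherianRing_of_finite ℤ A
  have h3 : (AddSubgroup.toIntSubmodule (AddCommGroup.torsion A)).FG := IsNoetherian.noetherian _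
  have h4 : Module.Finite ℤ (AddSubgroup.toIntSubmodule (AddCommGroup.torsion A)) :=
    Module.Finite.iff_fg.2 h3
  have h5 : Module.Finite ℤ (AddCommGroup.torsion A) := h4
  refine Module.finite_of_fg_torsion (AddCommGroup.torsion A) ?_
  rintro ⟨x, hx⟩
  have h6 : IsOfFinAddOrder x := hx
  obtain ⟨n, hn, hnx⟩ := isOfFinAddOrder_iff_nsmul_eq_zero.1 h6
  refine ⟨⟨(n : ℤ), ?_⟩, ?_⟩
  · rw [mem_nonZeroDivisors_iff_ne_zero]
    exact_mod_cast hn.ne'
  · apply Subtype.ext
    show ((n : ℤ) • x) = 0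
    rw [natCast_zsmul]
    exact hnx

/-- the torsion subgroups of isomorphic groups -/
def torsEquiv {A B : Type} [AddCommGroup A] [AddCommGroup B] (e : A ≃+ B) :
    AddCommGroup.torsion A ≃ AddCommGroup.torsion B where
  toFun := fun x => ⟨e x.1, by
    have h1 : IsOfFinAddOrder x.1 := x.2
    exact (e : A →+ B).isOfFinAddOrder h1⟩
  invFun := fun x => ⟨e.symm x.1, by
    have h1 : IsOfFinAddOrder x.1 := x.2
    exact (e.symm : B →+ A).isOfFinAddOrder h1⟩
  left_inv := fun x => Subtype.ext (e.symm_apply_apply _)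
  right_inv := fun x => Subtype.ext (e.apply_symm_apply _)

/-! ### points of order two and four -/

section pts

variable {K : Type} [Field K] {W : WeierstrassCurve K} {a b c : K}

theorem ns_of (h : IsR W a b c) (hab : a ≠ b) (hac : a ≠ c) : W.toAffine.Nonsingular a 0 := by
  rw [Affine.nonsingular_iff]
  refine ⟨(isR_eqn h).2 (by ring), Or.inl ?_⟩
  rw [h.h1, h.h2, h.h4]
  intro h0
  have : (a - b) * (a - c) = 0 := by linear_combination -h0
  rcases mul_eq_zero.1 this with h1 | h1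
  · exact hab (sub_eq_zero.1 h1)
  · exact hac (sub_eq_zero.1 h1)

/-- the points killed by two -/
theorem two_mem (h : IsR W a b c) (h2 : (2 : K) ≠ 0) (na : W.toAffine.Nonsingular a 0)
    (nb : W.toAffine.Nonsingular b 0) (nc : W.toAffine.Nonsingular c 0) (P : W.toAffine.Point) :
    P ∈ ({0, Affine.Point.some a 0 na, Affine.Point.some b 0 nb, Affine.Point.some c 0 nc} :
      Finset W.toAffine.Point) ↔ P + P = 0 := by
  rw [Finset.mem_insert, Finset.mem_insert, Finset.mem_insert, Finset.mem_singleton]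
  constructor
  · rintro (rfl | rfl | rfl | rfl)
    · exact add_zero 0
    · exact dbl_T h _
    · exact dbl_T h _
    · exact dbl_T h _
  · intro hP
    by_cases h0 : P = 0
    · exact Or.inl h0
    · obtain ⟨x, hx, hPx, hxx⟩ := two_tor h h2 hP h0
      right
      rcases hxx with hx0 | hx0 | hx0
      · left
        subst hx0
        exact hPx
      · right; left
        subst hx0
        exact hPx
      · right; right
        subst hx0
        exact hPx

theorem card_T (hab : a ≠ b) (hac : a ≠ c) (hbc : b ≠ c) (na : W.toAffine.Nonsingular a 0)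
    (nb : W.toAffine.Nonsingular b 0) (nc : W.toAffine.Nonsingular c 0) :
    Finset.card ({0, Affine.Point.some a 0 na, Affine.Point.some b 0 nb,
      Affine.Point.some c 0 nc} : Finset W.toAffine.Point) = 4 := by
  have hinj : ∀ (x y : K) (hx : W.toAffine.Nonsingular x 0) (hy : W.toAffine.Nonsingular y 0),
      (Affine.Point.some x 0 hx : W.toAffine.Point) = .some y 0 hy → x = y := by
    intro x y hx hy he
    injection he
  rw [Finset.card_insert_of_notMem, Finset.card_insert_of_notMem, Finset.card_insert_of_notMem,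
    Finset.card_singleton]
  · rw [Finset.mem_singleton]
    exact fun h => hbc (hinj _ _ _ _ h)
  · rw [Finset.mem_insert, Finset.mem_singleton]
    rintro (h | h)
    · exact hab (hinj _ _ _ _ h)
    · exact hac (hinj _ _ _ _ h)
  · rw [Finset.mem_insert, Finset.mem_insert, Finset.mem_singleton]
    rintro (h | h | h)
    · exact absurd h.symm (Affine.Point.some_ne_zero _)
    · exact absurd h.symm (Affine.Point.some_ne_zero _)
    · exact absurd h.symm (Affine.Point.some_ne_zero _)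

theorem card_two_of {A : Type} [AddCommGroup A] (T : Finset A) (hT : ∀ P, P ∈ T ↔ P + P = 0) :
    Nat.card {x : AddCommGroup.torsion A // x + x = 0} = T.card := by
  have e : {x : AddCommGroup.torsion A // x + x = 0} ≃ T :=
    { toFun := fun x => ⟨x.1.1, (hT _).2 (congrArg Subtype.val x.2)⟩
      invFun := fun x => ⟨⟨x.1, by
        have h1 : IsOfFinAddOrder x.1 := isOfFinAddOrder_iff_nsmul_eq_zero.2
          ⟨2, two_pos, by rw [two_nsmul]; exact (hT _).1 x.2⟩
        exact h1⟩, Subtype.ext ((hT _).1 x.2)⟩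
      left_inv := fun x => rfl
      right_inv := fun x => rfl }
  rw [Nat.card_congr e, Nat.card_eq_fintype_card, Fintype.card_coe]

theorem two_card (h : IsR W a b c) (h2 : (2 : K) ≠ 0) (hab : a ≠ b) (hac : a ≠ c) (hbc : b ≠ c) :
    Nat.card {x : AddCommGroup.torsion W.toAffine.Point // x + x = 0} = 4 := by
  have na := ns_of h hab hac
  have nb := ns_of h.rot hbc hab.symm
  have nc := ns_of h.rot.rot hac.symm hbc.symm
  rw [card_two_of _ (two_mem h h2 na nb nc), card_T hab hac hbc]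

/-- doubling -/
theorem dbl_sq (h : IsR W a b c) (h2 : (2 : K) ≠ 0) {x y : K} (hP : W.toAffine.Nonsingular x y)
    (hy : y ≠ 0) {X Y : K} (H : W.toAffine.Nonsingular X Y)
    (he : (Affine.Point.some x y hP + Affine.Point.some x y hP : W.toAffine.Point) =
      Affine.Point.some X Y H) : IsSquare (X - a) := by
  have hneg : y ≠ W.toAffine.negY x y := by
    intro h1
    apply hy
    rw [Affine.negY, h.h1, h.h3] at h1
    have : 2 * y = 0 := by linear_combination h1
    exact (mul_eq_zero.1 this).resolve_left h2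
  rw [Affine.Point.add_self_of_Y_ne hneg] at he
  injection he with e1 e2
  have q1 := (isR_eqn h).1 hP.1
  have hs : W.toAffine.slope x x y y = (3 * x ^ 2 - 2 * (a + b + c) * x + (a * b + a * c + b * c)) /
      (2 * y) := by
    rw [Affine.slope_of_Y_ne rfl hneg, Affine.negY, h.h1, h.h2, h.h3, h.h4]
    congr 1
    · ring
    · ring
  rw [Affine.addX, hs, h.h1, h.h2, zero_mul, add_zero] at e1
  refine ⟨((x - a) * (x - b) + (x - a) * (x - c) - (x - b) * (x - c)) / (2 * y), ?_⟩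
  rw [← e1]
  field_simp
  linear_combination (-4 * ((x - b) + (x - c))) * q1

/-- the double of a point that is of order two -/
theorem four_cases (h : IsR W a b c) (h2 : (2 : K) ≠ 0) (P : W.toAffine.Point)
    (h4 : (P + P) + (P + P) = 0) (hne : P + P ≠ 0) :
    ∃ e, (e = a ∨ e = b ∨ e = c) ∧ IsSquare (e - a) ∧ IsSquare (e - b) ∧ IsSquare (e - c) := by
  obtain ⟨e, he, hP2, hee⟩ := two_tor h h2 h4 hne
  rcases P with _ | ⟨x, y, hxy⟩
  · exact absurd (add_zero _) hne
  have hy : y ≠ 0 := by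
    rintro rfl
    exact hne (dbl_T h hxy)
  exact ⟨e, hee, dbl_sq h h2 hxy hy he hP2, dbl_sq h.rot h2 hxy hy he hP2,
    dbl_sq h.rot.rot h2 hxy hy he hP2⟩

theorem fg_of (h : IsR W a b c) [NumberField K] (hab : a ≠ b) (hac : a ≠ c) (hbc : b ≠ c) :
    AddGroup.FG W.toAffine.Point := by
  have hW : W = crv (-a) (-b) (-c) := by
    apply WeierstrassCurve.ext
    · rw [h.h1]
      rfl
    · rw [h.h2]
      show _ = -a + -b + -c
      ring
    · rw [h.h3]
      rfl
    · rw [h.h4]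
      show _ = -a * -b + -a * -c + -b * -c
      ring
    · rw [h.h6]
      show _ = -a * -b * -c
      ring
  rw [hW]
  exact pt_fg (fun h => hab (neg_injective h)) (fun h => hac (neg_injective h))
    (fun h => hbc (neg_injective h))

end pts

/-- the curve over `K` -/
theorem isRK (m : ℤ) (K : Type) [Field K] : IsR ((Em m).map (Int.castRingHom K)) (0 : K)
    (-9 * (m : K)) (16 * (m : K)) := by
  refine ⟨?_, ?_, ?_, ?_, ?_⟩ <;> simp [Em] <;> ring

theorem t_TOR : S_TOR := by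
  intro n d H K _ _ r h
  have hn0 : (n : K) ≠ 0 := by
    have := npos H
    exact_mod_cast this.ne'
  obtain ⟨m, hm⟩ : ∃ m : ℤ, m = -(n : ℤ) := ⟨_, rfl⟩
  have hmK : (m : K) = -(n : K) := by rw [hm]; push_cast; rfl
  rw [← hm]
  have h4 : m % 4 = 1 := by
    have := mod_n H
    omega
  have hR := isRK m K
  have hm0 : (m : K) ≠ 0 := by rw [hmK]; exact neg_ne_zero.2 hn0
  have h2 : (2 : K) ≠ 0 := two_ne_zero
  have hab : (0 : K) ≠ -9 * (m : K) := (mul_ne_zero (by norm_num) hm0).symm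
  have hac : (0 : K) ≠ 16 * (m : K) := (mul_ne_zero (by norm_num) hm0).symm
  have hbc : (-9 * (m : K)) ≠ 16 * (m : K) := by
    intro h0
    have : (25 : K) * m = 0 := by linear_combination -h0
    exact (mul_ne_zero (by norm_num) hm0) this
  have hfin : Finite (AddCommGroup.torsion ((Em m).map (Int.castRingHom K)).toAffine.Point) :=
    finite_tors (fg_of hR hab hac hbc)
  let e := torsEquiv ((vr h4 K).equiv (WN_Δ_ne h4 K))
  have hcard : Nat.card (AddCommGroup.torsion (base (WN m) K).toAffine.Point) =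
      Nat.card (AddCommGroup.torsion ((Em m).map (Int.castRingHom K)).toAffine.Point) :=
    Nat.card_congr e
  refine ⟨Finite.of_equiv _ e.symm, ?_⟩
  rw [hcard]
  refine card_four (two_card hR h2 hab hac hbc) ?_
  rintro ⟨P, hP⟩ h5
  apply Subtype.ext
  show P + P = 0
  by_contra hne
  have h6 : (P + P) + (P + P) = 0 := congrArg Subtype.val h5
  obtain ⟨e', he', s1, s2, s3⟩ := four_cases hR h2 P h6 hne
  have key : ∀ (k x : K), k ≠ 0 → IsSquare (k * k * x) → IsSquare x := by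
    rintro k x hk ⟨z, hz⟩
    refine ⟨z / k, ?_⟩
    field_simp
    linear_combination hz
  rcases he' with rfl | rfl | rfl
  · apply neg_n_not_sq H h
    apply key 3 _ (by norm_num)
    have e1 : (3 : K) * 3 * -(n : K) = 0 - -9 * (m : K) := by rw [hmK]; ring
    rw [e1]
    exact s2
  · apply n_not_sq H h
    apply key 3 _ (by norm_num)
    have e1 : (3 : K) * 3 * (n : K) = -9 * (m : K) - 0 := by rw [hmK]; ring
    rw [e1]
    exact s1
  · apply neg_n_not_sq H h
    apply key 4 _ (by norm_num)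
    have e1 : (4 : K) * 4 * -(n : K) = 16 * (m : K) - 0 := by rw [hmK]; ring
    rw [e1]
    exact s1

/-! ### unramified places -/

section unr

variable {n d : ℕ} {K : Type} [Field K] [NumberField K] {r : K}

/-- the square root of `d` is integral -/
theorem exists_int (h : Qf d K r) : ∃ δ : 𝓞 K, algebraMap (𝓞 K) K δ = r ∧
    δ ^ 2 = ((d : ℤ) : 𝓞 K) := by
  have hr := h.hr
  have hi : IsIntegral ℤ r := by
    refine IsIntegral.of_pow (n := 2) (by norm_num) ?_
    rw [hr]
    have := isIntegral_algebraMap (R := ℤ) (A := K) (x := (d : ℤ))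
    simpa using this
  obtain ⟨δ, hδ⟩ := (IsIntegralClosure.isIntegral_iff (R := ℤ) (A := 𝓞 K)).1 hi
  refine ⟨δ, hδ, ?_⟩
  apply FaithfulSMul.algebraMap_injective (𝓞 K) K
  rw [map_pow, map_intCast, hδ, hr]
  simp

omit [NumberField K] in
/-- coprime integers are not both in a prime ideal -/
theorem not_mem_of_cop {x y : ℤ} (hxy : IsCoprime x y) (v : HeightOneSpectrum (𝓞 K))
    (hv : ((x : ℤ) : 𝓞 K) ∈ v.asIdeal) : (y : 𝓞 K) ∉ v.asIdeal := by
  intro hmem
  obtain ⟨a, b, hab⟩ := hxy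
  apply v.isPrime.ne_top
  rw [Ideal.eq_top_iff_one]
  have e : (1 : 𝓞 K) = (a : 𝓞 K) * (x : 𝓞 K) + (b : 𝓞 K) * (y : 𝓞 K) := by
    have := congrArg (fun z : ℤ => (z : 𝓞 K)) hab
    push_cast at this
    exact this.symm
  rw [e]
  exact add_mem (Ideal.mul_mem_left _ _ hv) (Ideal.mul_mem_left _ _ hmem)

/-- a prime which does not divide `4 d` is not ramified -/
theorem not_mem_sq (h : Qf d K r) {p : ℕ} (hp : p.Prime) (hpD : IsCoprime (p : ℤ) (4 * d))
    (v : HeightOneSpectrum (𝓞 K)) (hv : ((p : ℕ) : 𝓞 K) ∈ v.asIdeal) :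
    ((p : ℕ) : 𝓞 K) ∉ v.asIdeal ^ 2 := by
  intro h2
  obtain ⟨δ, hδ, hδ2⟩ := exists_int h
  have hadj : Algebra.adjoin ℚ {algebraMap (𝓞 K) K δ} = ⊤ := by
    rw [eq_top_iff]
    rintro x -
    obtain ⟨a, b, hx⟩ := h.hK x
    rw [hδ]
    have e : x = algebraMap ℚ K a + algebraMap ℚ K b * r := hx
    rw [e]
    exact add_mem (Subalgebra.algebraMap_mem _ _) (mul_mem (Subalgebra.algebraMap_mem _ _)
      (Algebra.subset_adjoin rfl))
  have h3 := aeval_derivative_mem_differentIdeal ℤ ℚ K δ hadj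
  have hpp : Prime (p : ℤ) := Nat.prime_iff_prime_int.1 hp
  have hpb : Ideal.span {(p : ℤ)} ≠ ⊥ := by
    rw [Ne, Ideal.span_singleton_eq_bot]
    exact_mod_cast hp.ne_zero
  have hpm : (Ideal.span {(p : ℤ)}).IsMaximal :=
    Ideal.IsPrime.isMaximal ((Ideal.span_singleton_prime hpp.ne_zero).2 hpp) hpb
  have h4 : v.asIdeal ^ (2 - 1) ∣ differentIdeal ℤ (𝓞 K) := by
    apply pow_sub_one_dvd_differentIdeal ℤ v.asIdeal 2 (p := Ideal.span {(p : ℤ)}) hpb
    rw [Ideal.map_span, Set.image_singleton, Ideal.dvd_span_singleton]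
    simpa using h2
  rw [pow_one, Ideal.dvd_iff_le] at h4
  have h5 := h4 h3
  have hint : IsIntegral ℤ δ := RingOfIntegers.isIntegral δ
  obtain ⟨g, hg⟩ : minpoly ℤ δ ∣ (Polynomial.X ^ 2 - Polynomial.C (d : ℤ) : Polynomial ℤ) := by
    apply minpoly.isIntegrallyClosed_dvd hint
    simp only [map_sub, map_pow, Polynomial.aeval_X, Polynomial.aeval_C, hδ2]
    simp
  have h6 := congrArg (fun q => Polynomial.aeval δ (Polynomial.derivative q)) hg
  simp only [Polynomial.derivative_sub, Polynomial.derivative_X_pow, Polynomial.derivative_C,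
    sub_zero, Polynomial.derivative_mul, map_add, map_mul, minpoly.aeval, zero_mul, add_zero] at h6
  have h7 : 2 * δ ∈ v.asIdeal := by
    have e : 2 * δ = Polynomial.aeval δ (Polynomial.derivative (minpoly ℤ δ)) *
        Polynomial.aeval δ g := by
      rw [← h6, Polynomial.aeval_C, map_pow, Polynomial.aeval_X]
      norm_num
    rw [e]
    exact Ideal.mul_mem_right _ _ h5
  have h8 : ((4 * d : ℤ) : 𝓞 K) ∈ v.asIdeal := by
    have e : ((4 * d : ℤ) : 𝓞 K) = 2 * δ * (2 * δ) := by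
      have : 2 * δ * (2 * δ) = 4 * δ ^ 2 := by ring
      rw [this, hδ2]
      push_cast
      ring
    rw [e]
    exact Ideal.mul_mem_left _ _ h7
  exact not_mem_of_cop hpD v (by exact_mod_cast hv) h8

theorem val_exp (v : HeightOneSpectrum (𝓞 K)) {p : ℕ}
    (hv : ((p : ℕ) : 𝓞 K) ∈ v.asIdeal) (h2 : ((p : ℕ) : 𝓞 K) ∉ v.asIdeal ^ 2) :
    v.valuation K (p : K) = exp (-1 : ℤ) := by
  have e : algebraMap (𝓞 K) K (p : 𝓞 K) = (p : K) := map_natCast _ p
  rw [← e, HeightOneSpectrum.valuation_of_algebraMap]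
  have h1 : v.intValuation ((p : ℕ) : 𝓞 K) ≤ exp (-(1 : ℕ) : ℤ) := by
    rw [HeightOneSpectrum.intValuation_le_pow_iff_mem, pow_one]
    exact hv
  have h3 : ¬ v.intValuation ((p : ℕ) : 𝓞 K) ≤ exp (-(2 : ℕ) : ℤ) := by
    rw [HeightOneSpectrum.intValuation_le_pow_iff_mem]
    exact h2
  have h0 : v.intValuation ((p : ℕ) : 𝓞 K) ≠ 0 := by
    intro h0
    apply h3
    rw [h0]
    exact zero_le
  generalize v.intValuation ((p : ℕ) : 𝓞 K) = x at h0 h1 h3
  rw [← exp_log h0] at h1 h3 ⊢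
  rw [exp_le_exp] at h1 h3
  congr 1
  push_cast at h1 h3
  omega

theorem val_int_one (v : HeightOneSpectrum (𝓞 K)) {n : ℤ} (h : (n : 𝓞 K) ∉ v.asIdeal) :
    v.valuation K (n : K) = 1 := by
  have e : algebraMap (𝓞 K) K (n : 𝓞 K) = (n : K) := map_intCast _ n
  have h1 : v.valuation K (n : K) ≤ 1 := e ▸ v.valuation_le_one (K := K) (n : 𝓞 K)
  rcases h1.lt_or_eq with h2 | h2
  · exfalso
    apply h
    have h3 := v.valuation_lt_one_iff_mem (K := K) (n : 𝓞 K)
    have h4 : v.valuation K (algebraMap (𝓞 K) K (n : 𝓞 K)) < 1 := by rw [e]; exact h2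
    exact h3.1 h4
  · exact h2

/-- a prime factor of a natural number in a prime ideal -/
theorem exists_prime_mem (v : HeightOneSpectrum (𝓞 K)) {n : ℕ} (hn : n ≠ 0)
    (h : (n : 𝓞 K) ∈ v.asIdeal) : ∃ p : ℕ, p.Prime ∧ p ∣ n ∧ (p : 𝓞 K) ∈ v.asIdeal := by
  have h1 : (((n.primeFactorsList : Multiset ℕ).map (fun z : ℕ => (z : 𝓞 K))).prod) ∈ v.asIdeal := by
    have e : (((n.primeFactorsList : Multiset ℕ).map (fun z : ℕ => (z : 𝓞 K))).prod) =
        ((n : ℕ) : 𝓞 K) := by
      rw [Multiset.map_coe, Multiset.prod_coe, ← Nat.cast_list_prod,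
        Nat.prod_primeFactorsList hn]
    rw [e]
    exact h
  obtain ⟨q, hq, hqv⟩ := (v.isPrime.multiset_prod_mem_iff_exists_mem _).1 h1
  obtain ⟨p, hp, rfl⟩ := Multiset.mem_map.1 hq
  rw [Multiset.mem_coe] at hp
  exact ⟨p, Nat.prime_of_mem_primeFactorsList hp, Nat.dvd_of_mem_primeFactorsList hp, hqv⟩

/-- the valuation of `n` at the places above `n` -/
theorem val_n (H : Hy n d) (h : Qf d K r) (v : HeightOneSpectrum (𝓞 K))
    (hv : ((n : ℕ) : 𝓞 K) ∈ v.asIdeal) : v.valuation K (n : K) = exp (-1 : ℤ) := by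
  obtain ⟨p, hp, ⟨e, he⟩, hpv⟩ := exists_prime_mem v (npos H).ne' hv
  have hn := mod_n H
  have hcop : IsCoprime (p : ℤ) (4 * d) := by
    have h1 : p.Coprime d := Nat.Coprime.coprime_dvd_left ⟨e, he⟩ H.hc
    have h2 : p.Coprime 4 := by
      have h4 : Nat.Coprime 4 n := by
        rw [Nat.coprime_iff_gcd_eq_one, Nat.gcd_rec, hn]
        norm_num
      exact Nat.Coprime.coprime_dvd_left ⟨e, he⟩ h4.symm
    have h3 : p.Coprime (4 * d) := Nat.Coprime.mul_right h2 h1
    exact_mod_cast Nat.isCoprime_iff_coprime.2 h3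
  have h1 := val_exp v hpv (not_mem_sq h hp hcop v hpv)
  have hce : IsCoprime (p : ℤ) (e : ℤ) := by
    have h2 : Squarefree (p * e) := he ▸ H.hn.1
    exact Nat.isCoprime_iff_coprime.2 (Nat.coprime_of_squarefree_mul h2)
  have h3 : v.valuation K ((e : ℤ) : K) = 1 :=
    val_int_one v (not_mem_of_cop hce v (by exact_mod_cast hpv))
  rw [he, Nat.cast_mul, map_mul, h1]
  have e1 : ((e : ℕ) : K) = ((e : ℤ) : K) := by push_cast; rfl
  rw [e1, h3, mul_one]

end unr

/-! ### minimality -/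

theorem WN_c4 {m : ℤ} (hm : m % 4 = 1) : (WN m).c₄ = 481 * m ^ 2 := by
  obtain ⟨k, rfl⟩ : ∃ k, m = 4 * k + 1 := ⟨m / 4, by omega⟩
  rw [WN_k]
  simp only [WeierstrassCurve.c₄, WeierstrassCurve.b₂, WeierstrassCurve.b₄]
  ring

section

variable {K : Type} [Field K] (v : Valuation K (WithZero (Multiplicative ℤ)))

/-- `c₄` is integral if the coefficients are -/
lemma c4_le (W : WeierstrassCurve K) (h1 : v W.a₁ ≤ 1) (h2 : v W.a₂ ≤ 1) (h3 : v W.a₃ ≤ 1)
    (h4 : v W.a₄ ≤ 1) (h6 : v W.a₆ ≤ 1) : v W.c₄ ≤ 1 := by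
  let W' : WeierstrassCurve v.integer := ⟨⟨W.a₁, h1⟩, ⟨W.a₂, h2⟩, ⟨W.a₃, h3⟩, ⟨W.a₄, h4⟩, ⟨W.a₆, h6⟩⟩
  have e : W = W'.map v.integer.subtype := rfl
  rw [e, WeierstrassCurve.map_c₄]
  exact W'.c₄.2

/-- `Δ` is integral if the coefficients are -/
lemma disc_le (W : WeierstrassCurve K) (h1 : v W.a₁ ≤ 1) (h2 : v W.a₂ ≤ 1) (h3 : v W.a₃ ≤ 1)
    (h4 : v W.a₄ ≤ 1) (h6 : v W.a₆ ≤ 1) : v W.Δ ≤ 1 := by
  let W' : WeierstrassCurve v.integer := ⟨⟨W.a₁, h1⟩, ⟨W.a₂, h2⟩, ⟨W.a₃, h3⟩, ⟨W.a₄, h4⟩, ⟨W.a₆, h6⟩⟩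
  have e : W = W'.map v.integer.subtype := rfl
  rw [e, WeierstrassCurve.map_Δ]
  exact W'.Δ.2

end

theorem t_MIN : S_MIN := by
  intro n d H K _ _ r h v C h1 h2 h3 h4 h6
  have h4' := c4_le _ _ h1 h2 h3 h4 h6
  have hΔ := disc_le _ _ h1 h2 h3 h4 h6
  obtain ⟨m, hm⟩ : ∃ m : ℤ, m = -(n : ℤ) := ⟨_, rfl⟩
  rw [← hm] at h4' hΔ ⊢
  have hm4 : m % 4 = 1 := by
    have := mod_n H
    omega
  have e4 : (base (WN m) K).c₄ = ((481 * m ^ 2 : ℤ) : K) := by
    rw [WeierstrassCurve.map_c₄, WN_c4 hm4]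
    simp
  have eΔ : (base (WN m) K).Δ = ((3 ^ 4 * 5 ^ 4 * m ^ 6 : ℤ) : K) := by
    rw [WeierstrassCurve.map_Δ, WN_Δ hm4]
    simp
  have hcop : IsCoprime (15 : ℤ) (481 * m ^ 2) := by
    have h5 : IsCoprime (15 : ℤ) m := by
      rw [hm]
      apply IsCoprime.neg_right
      have : Nat.Coprime 15 n := by
        rcases H.hn.2 with h | h
        · rw [Nat.coprime_iff_gcd_eq_one, Nat.gcd_rec, show n % 15 = 8 by omega]
          norm_num
        · rw [Nat.coprime_iff_gcd_eq_one, Nat.gcd_rec, show n % 15 = 2 by omega]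
          norm_num
      exact_mod_cast Nat.isCoprime_iff_coprime.2 this
    have h7 : IsCoprime (15 : ℤ) 481 := by norm_num
    exact h7.mul_right h5.pow_right
  by_cases h15 : ((15 : ℤ) : 𝓞 K) ∈ v.asIdeal
  · have hu : v.valuation K (base (WN m) K).c₄ = 1 := by
      rw [e4]
      exact val_int_one v (not_mem_of_cop hcop v h15)
    rw [WeierstrassCurve.variableChange_c₄, map_mul, map_pow, hu, mul_one] at h4'
    rw [WeierstrassCurve.variableChange_Δ, map_mul, map_pow]
    have h5 : v.valuation K ((C.u⁻¹ : Kˣ) : K) ≤ 1 := by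
      by_contra hcon
      rw [not_le] at hcon
      exact absurd h4' (not_le.2 (one_lt_pow₀ hcon (by norm_num)))
    exact mul_le_of_le_one_left' (pow_le_one₀ zero_le h5)
  · have h3v : v.valuation K ((3 : ℤ) : K) = 1 := by
      apply val_int_one
      intro h3
      apply h15
      rw [show ((15 : ℤ) : 𝓞 K) = 5 * ((3 : ℤ) : 𝓞 K) by push_cast; norm_num]
      exact v.asIdeal.mul_mem_left _ h3
    have h5v : v.valuation K ((5 : ℤ) : K) = 1 := by
      apply val_int_one
      intro h5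
      apply h15
      rw [show ((15 : ℤ) : 𝓞 K) = 3 * ((5 : ℤ) : 𝓞 K) by push_cast; norm_num]
      exact v.asIdeal.mul_mem_left _ h5
    have eΔ' : v.valuation K (base (WN m) K).Δ = v.valuation K (n : K) ^ 6 := by
      rw [eΔ, Int.cast_mul, Int.cast_mul, Int.cast_pow,
        Int.cast_pow, Int.cast_pow, map_mul, map_mul, map_pow, map_pow, map_pow, h3v, h5v,
        one_pow, one_mul, one_mul, hm, Int.cast_neg, Valuation.map_neg, Int.cast_natCast]
    by_cases hDv : ((n : ℕ) : 𝓞 K) ∈ v.asIdeal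
    · have hv := val_n H h v hDv
      rw [WeierstrassCurve.variableChange_Δ, map_mul, map_pow] at hΔ ⊢
      rw [eΔ', hv] at hΔ ⊢
      have h5 : v.valuation K ((C.u⁻¹ : Kˣ) : K) ≤ 1 := by
        by_contra hcon
        rw [not_le] at hcon
        have hne : v.valuation K ((C.u⁻¹ : Kˣ) : K) ≠ 0 := (zero_lt_one.trans hcon).ne'
        obtain ⟨n, hn⟩ : ∃ n : ℤ, v.valuation K ((C.u⁻¹ : Kˣ) : K) = exp n :=
          ⟨_, (WithZero.exp_log hne).symm⟩
        rw [hn] at hcon hΔ
        rw [← exp_nsmul, ← exp_nsmul, ← exp_add, ← exp_zero, exp_le_exp] at hΔ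
        rw [← exp_zero, exp_lt_exp] at hcon
        simp only [nsmul_eq_mul] at hΔ
        push_cast at hΔ
        omega
      exact mul_le_of_le_one_left' (pow_le_one₀ zero_le h5)
    · have h7 : v.valuation K ((n : ℤ) : K) = 1 := val_int_one v (by exact_mod_cast hDv)
      rw [Int.cast_natCast] at h7
      rw [eΔ', h7, one_pow]
      exact hΔ

end Pool.Agent.N717.QB
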